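import Mathlib
import Pool.Agent.MP_f6d183_an.Defs
import Pool.Agent.MP_f6d183_an.Main

set_option autoImplicit false

/-!
# The incompressible Euler equations are ill-posed in `B^1_{∞,q}(ℝⁿ)`, `n ≥ 2`, `1 < q < ∞`

The first part is norm inflation at a steady shear flow `u₀`: arbitrarily close to `u₀` in
`B^1_{∞,q}` there are smooth divergence-free data all of whose solutions in `C([0,T], B^1_{∞,q})`
have arbitrarily large norm at time `T`. The second part is the failure of local well-posedness in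
the sense of Hadamard, for every notion of solution in `C([0,T], B^1_{∞,q})`.
-/

open Pool.Agent.MP_f6d183_an
open scoped ENNReal ContDiff

theorem Pool.Agent.Results.MP_f6d183_an.IllPosed.result :
    ∀ n : ℕ, 2 ≤ n → ∀ q : ℝ, 1 < q → ∀ χ : LPCutoff n,
      (∃ u₀ : E n → E n, MemBesov χ q u₀ ∧ WeaklyDivFree u₀ ∧
        (∀ T : ℝ, 0 < T → IsEulerSolution χ q T u₀ (fun _ => u₀) (fun _ _ => 0)) ∧
        ∀ T : ℝ, 0 < T → ∀ A : ℝ≥0∞, A < ⊤ → ∀ ε : ℝ≥0∞, 0 < ε →
          ∃ v₀ : E n → E n, ContDiff ℝ ∞ v₀ ∧ MemBesov χ q v₀ ∧ WeaklyDivFree v₀ ∧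
            besovNorm χ q (fun x => v₀ x - u₀ x) < ε ∧
            ∀ (v : ℝ → E n → E n) (p : ℝ → E n → ℝ), IsEulerSolution χ q T v₀ v p →
              A < besovNorm χ q (v T)) ∧
      ∀ Sol : ℝ → (E n → E n) → (ℝ → E n → E n) → Prop,
        (∀ T u₀ u, Sol T u₀ u → ∃ p, IsEulerSolution χ q T u₀ u p) → ¬ WellPosed χ q Sol :=
  fun _ hn _ hq χ => ⟨inflation hn hq χ, fun Sol hSol => not_wellPosed hn hq χ Sol hSol⟩
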